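import Pool.Agent.CAM.Spr
import Pool.Agent.CAM.Cas
import Pool.Agent.CAM.Aff

set_option autoImplicit false

/-! Module ExA: no cubes in the coincidence sets in the ergodic case.
`Γ` a module over a commutative ring `A`, `t : Fin k → A`, `g n = ∑_i t_i^n • γ_i`, `i0` with `γ_{i0} ≠ 0` and `(t_{i0}^h - 1)`, `(t_{i0}^h - t_j^h)` (`j ≠ i0`, `h ≥ 1`) injective on `Γ`, `t_{i0}` injective.
Suppose `g (m + h) = g m` on a cube `HasCube es {m | g (m+h) - g m = 0} n` with `es.length = k` (use the first `k - 1` entries, `HasCube.tail`).  Let `j_1..j_{k-1}` be the indices `≠ i0`; apply the operators `X^{e_a} - C (t_{j_a}^{e_a})` to `B m = g (m+h) - g m`: the result at `n` is `0`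
(`B` vanishes on the cube; as step (1) of module Cas with `K = 0`), and it equals `t_{i0}^n ∏_a (t_{i0}^{e_a} - t_{j_a}^{e_a}) (t_{i0}^h - 1) • γ_{i0}` since the factor `X^e - C(t_j^e)` kills the `j`-th term and multiplies the `i0`-th term by `t_{i0}^e - t_j^e`.
So `γ_{i0} = 0`, contradiction. -/

open Finset Filter Topology MeasureTheory Polynomial

namespace Pool.Agent.EXT

open Pool.Agent.CAM

theorem ExA_geo {A Γ : Type*} [CommRing A] [AddCommGroup Γ] [Module A Γ] (P : A[X]) (t : A) (δ : Γ)
    (m : ℕ) : act P (fun m => t ^ m • δ) m = t ^ m • (P.eval t • δ) := by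
  induction P using Polynomial.induction_on' with
  | add p q hp hq =>
    rw [act_add, Pi.add_apply, hp, hq, eval_add, add_smul, smul_add]
  | monomial k a =>
    rw [← C_mul_X_pow_eq_monomial, act_mul, act_C, act_X_pow, eval_mul, eval_C, eval_pow, eval_X,
      smul_smul, smul_smul, pow_add]
    congr 1
    ring

theorem ExA_sum {A Γ : Type*} [CommRing A] [AddCommGroup Γ] [Module A Γ] {k : ℕ} (P : A[X])
    (t : Fin k → A) (δ : Fin k → Γ) (m : ℕ) :
    act P (fun m => ∑ i, t i ^ m • δ i) m = ∑ i, t i ^ m • (P.eval (t i) • δ i) := by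
  have h1 : (fun m => ∑ i, t i ^ m • δ i) = ∑ i, (fun m => t i ^ m • δ i) := by
    funext n; rw [Finset.sum_apply]
  have h2 : act P (fun m => ∑ i, t i ^ m • δ i) = ∑ i, act P (fun m => t i ^ m • δ i) := by
    rw [h1]
    unfold act
    rw [map_sum]
  rw [h2, Finset.sum_apply]
  exact Finset.sum_congr rfl fun i _ => ExA_geo P (t i) (δ i) m

theorem ExA_eval_zero {A : Type*} [CommRing A] (t : A) (es : List ℕ) : ∀ bs : List A,
    bs.length = es.length → t ∈ bs → (Cas_P bs es).eval t = 0 := by
  induction es with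
  | nil =>
    intro bs hl ht
    have : bs = [] := List.eq_nil_of_length_eq_zero (by simpa using hl)
    subst this
    simp at ht
  | cons e es ih =>
    intro bs hl ht
    match bs, hl, ht with
    | (b :: bs), hl, ht =>
      simp only [Cas_P, eval_mul, eval_sub, eval_pow, eval_X, eval_C]
      rcases List.mem_cons.1 ht with h | h
      · rw [h, sub_self, zero_mul]
      · rw [ih bs (by simpa using hl) h, mul_zero]

theorem ExA_eval_inj {A Γ : Type*} [CommRing A] [AddCommGroup Γ] [Module A Γ] (t : A)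
    (es : List ℕ) : ∀ bs : List A, bs.length = es.length → (∀ e ∈ es, 1 ≤ e) →
    (∀ b ∈ bs, ∀ h : ℕ, 1 ≤ h → ∀ x : Γ, t ^ h • x = b ^ h • x → x = 0) →
    ∀ x : Γ, (Cas_P bs es).eval t • x = 0 → x = 0 := by
  induction es with
  | nil =>
    intro bs hl _ _ x hx
    have : bs = [] := List.eq_nil_of_length_eq_zero (by simpa using hl)
    subst this
    simpa [Cas_P] using hx
  | cons e es ih =>
    intro bs hl he hb x hx
    match bs, hl, hb, hx with
    | (b :: bs), hl, hb, hx =>
      simp only [Cas_P, eval_mul, eval_sub, eval_pow, eval_X, eval_C] at hx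
      rw [mul_smul, sub_smul, sub_eq_zero] at hx
      have h1 := hb b List.mem_cons_self e (he e List.mem_cons_self) _ hx
      exact ih bs (by simpa using hl) (fun e' h' => he e' (List.mem_cons_of_mem _ h'))
        (fun b' h' => hb b' (List.mem_cons_of_mem _ h')) x h1

theorem no_cube {A Γ : Type*} [CommRing A] [AddCommGroup Γ] [Module A Γ] {k : ℕ} (t : Fin k → A)
    (γ : Fin k → Γ) (i0 : Fin k) (hγ : γ i0 ≠ 0) (hinj : ∀ x : Γ, t i0 • x = 0 → x = 0)
    (h1 : ∀ h : ℕ, 1 ≤ h → ∀ x : Γ, t i0 ^ h • x = x → x = 0)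
    (h2 : ∀ j, j ≠ i0 → ∀ h : ℕ, 1 ≤ h → ∀ x : Γ, t i0 ^ h • x = t j ^ h • x → x = 0)
    (h : ℕ) (hh : 1 ≤ h) (es : List ℕ) (n : ℕ) (hes : es.length = k) (hpos : ∀ e ∈ es, 1 ≤ e) :
    ¬ HasCube es {m | (∑ i, t i ^ (m + h) • γ i) - (∑ i, t i ^ m • γ i) = 0} n := by
  classical
  intro hc
  have hk : 0 < k := i0.pos
  match es, hes, hpos, hc with
  | [], hes, _, _ =>
    simp at hes
    omega
  | (e :: es), hes, hpos, hc =>
    set bs : List A := ((Finset.univ.erase i0).toList.map t) with hbs
    have hlen : bs.length = es.length := by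
      rw [hbs, List.length_map, Finset.length_toList, Finset.card_erase_of_mem (Finset.mem_univ _),
        Finset.card_univ, Fintype.card_fin]
      simp at hes
      omega
    have hc2 : HasCube es {m | (∑ i, t i ^ (m + h) • γ i) - (∑ i, t i ^ m • γ i) ∈
        (⊥ : AddSubgroup Γ)} n := by
      refine Cas_mono es _ _ n ?_ hc
      intro m hm
      exact AddSubgroup.mem_bot.2 hm.1
    have h3 := Cas_cube (⊥ : AddSubgroup Γ) es bs
      (fun m => (∑ i, t i ^ (m + h) • γ i) - (∑ i, t i ^ m • γ i)) n hlen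
      (fun b _ x hx => by rw [AddSubgroup.mem_bot.1 hx, smul_zero]) hc2
    rw [AddSubgroup.mem_bot] at h3
    have h4 : (fun m => (∑ i, t i ^ (m + h) • γ i) - (∑ i, t i ^ m • γ i)) =
        fun m => ∑ i, t i ^ m • (t i ^ h • γ i - γ i) := by
      funext m
      rw [← Finset.sum_sub_distrib]
      refine Finset.sum_congr rfl fun i _ => ?_
      rw [pow_add, mul_smul, smul_sub]
    rw [h4, ExA_sum, Finset.sum_eq_single i0] at h3
    · have hinj' : ∀ (m : ℕ) (x : Γ), t i0 ^ m • x = 0 → x = 0 := by
        intro m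
        induction m with
        | zero => intro x hx; simpa using hx
        | succ m ih =>
          intro x hx
          rw [pow_succ, mul_smul] at hx
          exact hinj x (ih _ hx)
      have h5 := hinj' n _ h3
      have h6 := ExA_eval_inj (t i0) es bs hlen (fun e' h' => hpos e' (List.mem_cons_of_mem _ h'))
        (by
          intro b hb
          rw [hbs, List.mem_map] at hb
          obtain ⟨j, hj, rfl⟩ := hb
          rw [Finset.mem_toList, Finset.mem_erase] at hj
          exact h2 j hj.1) _ h5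
      exact hγ (h1 h hh _ (sub_eq_zero.1 h6))
    · intro j _ hj
      rw [ExA_eval_zero (t j) es bs hlen, zero_smul, smul_zero]
      rw [hbs, List.mem_map]
      exact ⟨j, by rw [Finset.mem_toList, Finset.mem_erase]; exact ⟨hj, Finset.mem_univ _⟩, rfl⟩
    · intro h'
      exact absurd (Finset.mem_univ _) h'

end Pool.Agent.EXT
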