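import Pool.Agent.CAM.Den
import Pool.Agent.CAM.PWc

set_option autoImplicit false

/-! Module ExB: density of `span {u ⊗ χ}` in `L¹(Y × G)` and functions with vanishing fibre averages.
`dens`: simple functions are dense in `L¹`; a measurable subset of `Y × G` is approximated in measure by finite disjoint unions of rectangles (the class of sets `E` with `1_E` in the `L¹`-closure of the span of `1_A ⊗ 1_B` is a Dynkin system containing the rectangles; `induction_on_inter` with
`generateFrom_prod`); `1_A ⊗ 1_B`: approximate `1_B` by `g ∈ span (chars G)` (`den`, `pw`).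
`dens0`: if moreover `∫ f (y, x) dμ(x) = 0` for a.e. `y`, then the approximation can be taken in the span of `u ⊗ χ` with `χ ≠ 1`: subtract from `g` its fibre average `g0(y) = ∫ g (y, x) dμ(x)` (which removes exactly the terms with `χ = 1`, `orth`); `∫ |g0| ≤ ∫∫ |g - f|`. -/

open Finset Filter Topology MeasureTheory

namespace Pool.Agent.EXT

set_option linter.unusedSectionVars false

open Pool.Agent.CAM

/-- elementary functions `u(y) χ(x)` -/
def elem (Y G : Type*) [MeasurableSpace Y] [CommGroup G] [TopologicalSpace G] : Set (Y × G → ℂ) :=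
  {F | ∃ (u : Y → ℂ) (χ : G →ₜ* Circle), Measurable u ∧ (∃ C : ℝ, ∀ y, ‖u y‖ ≤ C) ∧
    F = fun z => u z.1 * (χ z.2 : ℂ)}

/-- elementary functions with a non-trivial character -/
def elem0 (Y G : Type*) [MeasurableSpace Y] [CommGroup G] [TopologicalSpace G] : Set (Y × G → ℂ) :=
  {F | ∃ (u : Y → ℂ) (χ : G →ₜ* Circle), Measurable u ∧ (∃ C : ℝ, ∀ y, ‖u y‖ ≤ C) ∧ χ ≠ 1 ∧
    F = fun z => u z.1 * (χ z.2 : ℂ)}

/-- bounded measurable -/
theorem ExB_meas {Y G : Type*} [MeasurableSpace Y] [CommGroup G] [TopologicalSpace G]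
    [MeasurableSpace G] [BorelSpace G] {g : Y × G → ℂ} (hg : g ∈ Submodule.span ℂ (elem Y G)) :
    Measurable g ∧ ∃ C : ℝ, ∀ z, ‖g z‖ ≤ C := by
  induction hg using Submodule.span_induction with
  | mem x hx =>
    obtain ⟨u, χ, hu, ⟨C, hC⟩, rfl⟩ := hx
    refine ⟨?_, C, ?_⟩
    · refine (hu.comp measurable_fst).mul ?_
      have h : Measurable fun x : G => (χ x : ℂ) :=
        (continuous_subtype_val.comp χ.continuous_toFun).measurable
      exact h.comp measurable_snd
    · intro z
      rw [norm_mul, Circle.norm_coe, mul_one]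
      exact hC z.1
  | zero => exact ⟨measurable_const, 0, fun z => by simp⟩
  | add x y _ _ hx hy =>
    obtain ⟨hx1, C, hC⟩ := hx
    obtain ⟨hy1, D, hD⟩ := hy
    exact ⟨hx1.add hy1, C + D, fun z => (norm_add_le _ _).trans (add_le_add (hC z) (hD z))⟩
  | smul a x _ hx =>
    obtain ⟨hx1, C, hC⟩ := hx
    refine ⟨hx1.const_smul a, ‖a‖ * C, fun z => ?_⟩
    rw [Pi.smul_apply, norm_smul]
    exact mul_le_mul_of_nonneg_left (hC z) (norm_nonneg a)

theorem ExB_int {Z : Type*} [MeasurableSpace Z] (ρ : Measure Z) [IsFiniteMeasure ρ] {g : Z → ℂ}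
    (hg : Measurable g) (hb : ∃ C : ℝ, ∀ z, ‖g z‖ ≤ C) : Integrable g ρ := by
  obtain ⟨C, hC⟩ := hb
  exact Integrable.of_bound hg.aestronglyMeasurable C (Eventually.of_forall hC)

section

variable {Y G : Type*} [MeasurableSpace Y] (ν : Measure Y) [IsProbabilityMeasure ν]
    [CommGroup G] [TopologicalSpace G] [IsTopologicalGroup G] [CompactSpace G] [T2Space G]
    [SecondCountableTopology G] [MeasurableSpace G] [BorelSpace G] (μ : Measure G)
    [μ.IsHaarMeasure] [IsProbabilityMeasure μ]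

/-- approximable -/
def ExB_App (f : Y × G → ℂ) : Prop :=
  ∀ ε : ℝ, 0 < ε → ∃ g ∈ Submodule.span ℂ (elem Y G), ∫ z, ‖f z - g z‖ ∂(ν.prod μ) ≤ ε

omit [IsTopologicalGroup G] [CompactSpace G] [T2Space G] [SecondCountableTopology G]
  [μ.IsHaarMeasure] in
theorem ExB_span_int {g : Y × G → ℂ} (hg : g ∈ Submodule.span ℂ (elem Y G)) :
    Integrable g (ν.prod μ) :=
  ExB_int _ (ExB_meas hg).1 (ExB_meas hg).2

omit [IsTopologicalGroup G] [CompactSpace G] [T2Space G] [SecondCountableTopology G]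
  [μ.IsHaarMeasure] in
theorem ExB_add {f g : Y × G → ℂ} (hf : Integrable f (ν.prod μ)) (hg : Integrable g (ν.prod μ))
    (hf' : ExB_App ν μ f) (hg' : ExB_App ν μ g) : ExB_App ν μ (f + g) := by
  intro ε hε
  obtain ⟨a, ha, ha'⟩ := hf' (ε / 2) (by linarith)
  obtain ⟨b, hb, hb'⟩ := hg' (ε / 2) (by linarith)
  refine ⟨a + b, Submodule.add_mem _ ha hb, ?_⟩
  have hai := ExB_span_int ν μ ha
  have hbi := ExB_span_int ν μ hb
  calc ∫ z, ‖(f + g) z - (a + b) z‖ ∂(ν.prod μ)
      ≤ ∫ z, (‖f z - a z‖ + ‖g z - b z‖) ∂(ν.prod μ) := by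
        refine integral_mono ((hf.add hg).sub (hai.add hbi)).norm
          ((hf.sub hai).norm.add (hg.sub hbi).norm) fun z => ?_
        have : (f + g) z - (a + b) z = (f z - a z) + (g z - b z) := by
          simp only [Pi.add_apply]; ring
        simp only
        rw [this]
        exact norm_add_le _ _
    _ = ∫ z, ‖f z - a z‖ ∂(ν.prod μ) + ∫ z, ‖g z - b z‖ ∂(ν.prod μ) :=
        integral_add (hf.sub hai).norm (hg.sub hbi).norm
    _ ≤ ε := by linarith

omit [IsTopologicalGroup G] [CompactSpace G] [T2Space G] [SecondCountableTopology G]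
  [BorelSpace G] [μ.IsHaarMeasure] [IsProbabilityMeasure ν] [IsProbabilityMeasure μ] in
theorem ExB_smul {f : Y × G → ℂ} (c : ℂ) (hf' : ExB_App ν μ f) :
    ExB_App ν μ (fun z => c * f z) := by
  intro ε hε
  obtain ⟨a, ha, ha'⟩ := hf' (ε / (‖c‖ + 1)) (by positivity)
  refine ⟨c • a, Submodule.smul_mem _ c ha, ?_⟩
  have h1 : ∀ z, ‖c * f z - (c • a) z‖ = ‖c‖ * ‖f z - a z‖ := by
    intro z
    rw [Pi.smul_apply, smul_eq_mul, ← mul_sub, norm_mul]
  simp only [h1]
  rw [integral_const_mul]
  calc ‖c‖ * ∫ z, ‖f z - a z‖ ∂(ν.prod μ) ≤ (‖c‖ + 1) * (ε / (‖c‖ + 1)) := by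
        refine mul_le_mul (by linarith) ha' (integral_nonneg fun z => norm_nonneg _) (by positivity)
    _ = ε := by field_simp

omit [IsTopologicalGroup G] [CompactSpace G] [T2Space G] [SecondCountableTopology G]
  [μ.IsHaarMeasure] in
theorem ExB_lim {f : Y × G → ℂ} (hf : Integrable f (ν.prod μ))
    (h : ∀ ε : ℝ, 0 < ε → ∃ g : Y × G → ℂ, Integrable g (ν.prod μ) ∧ ExB_App ν μ g ∧
      ∫ z, ‖f z - g z‖ ∂(ν.prod μ) ≤ ε) : ExB_App ν μ f := by
  intro ε hε
  obtain ⟨b, hbi, hb, hb'⟩ := h (ε / 2) (by linarith)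
  obtain ⟨a, ha, ha'⟩ := hb (ε / 2) (by linarith)
  refine ⟨a, ha, ?_⟩
  have hai := ExB_span_int ν μ ha
  calc ∫ z, ‖f z - a z‖ ∂(ν.prod μ)
      ≤ ∫ z, (‖f z - b z‖ + ‖b z - a z‖) ∂(ν.prod μ) := by
        refine integral_mono (hf.sub hai).norm ((hf.sub hbi).norm.add (hbi.sub hai).norm)
          fun z => ?_
        exact norm_sub_le_norm_sub_add_norm_sub _ _ _
    _ = ∫ z, ‖f z - b z‖ ∂(ν.prod μ) + ∫ z, ‖b z - a z‖ ∂(ν.prod μ) :=
        integral_add (hf.sub hbi).norm (hbi.sub hai).norm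
    _ ≤ ε := by linarith

omit [IsTopologicalGroup G] [CompactSpace G] [T2Space G] [SecondCountableTopology G]
  [BorelSpace G] [MeasurableSpace G] in
theorem ExB_lift (u : Y → ℂ) (hu : Measurable u) (hb : ∃ C : ℝ, ∀ y, ‖u y‖ ≤ C) {g : G → ℂ}
    (hg : g ∈ Submodule.span ℂ (chars G)) :
    (fun z : Y × G => u z.1 * g z.2) ∈ Submodule.span ℂ (elem Y G) := by
  induction hg using Submodule.span_induction with
  | mem x hx =>
    obtain ⟨χ, rfl⟩ := hx
    exact Submodule.subset_span ⟨u, χ, hu, hb, rfl⟩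
  | zero =>
    have : (fun z : Y × G => u z.1 * (0 : G → ℂ) z.2) = 0 := by
      funext z; simp
    rw [this]
    exact Submodule.zero_mem _
  | add x y _ _ hx hy =>
    have : (fun z : Y × G => u z.1 * (x + y) z.2)
        = (fun z : Y × G => u z.1 * x z.2) + (fun z : Y × G => u z.1 * y z.2) := by
      funext z; simp [mul_add]
    rw [this]
    exact Submodule.add_mem _ hx hy
  | smul a x _ hx =>
    have : (fun z : Y × G => u z.1 * (a • x) z.2) = a • (fun z : Y × G => u z.1 * x z.2) := by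
      funext z
      simp only [Pi.smul_apply, smul_eq_mul]
      ring
    rw [this]
    exact Submodule.smul_mem _ a hx

theorem ExB_rect (A : Set Y) (hA : MeasurableSet A) (B : Set G) (hB : MeasurableSet B) :
    ExB_App ν μ ((A ×ˢ B).indicator fun _ => (1 : ℂ)) := by
  intro ε hε
  obtain ⟨g, hg, hg'⟩ := den μ (fun x hx => pw x hx) (B.indicator fun _ => (1 : ℂ))
    (ExB_int μ (measurable_const.indicator hB) ⟨1, fun z => by
      by_cases h : z ∈ B <;> simp [h]⟩) ε hε
  have hAb : ∀ y, ‖(A.indicator (fun _ => (1 : ℂ))) y‖ ≤ 1 := fun y => by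
      by_cases h : y ∈ A <;> simp [h]
  have hmem := ExB_lift (G := G) (A.indicator fun _ => (1 : ℂ)) (measurable_const.indicator hA)
    ⟨1, hAb⟩ hg
  refine ⟨_, hmem, ?_⟩
  have hgi : Integrable (fun z : Y × G => g z.2) (ν.prod μ) := by
    have h1 := ExB_lift (Y := Y) (G := G) (fun _ => (1 : ℂ)) measurable_const ⟨1, by simp⟩ hg
    have h2 := ExB_span_int ν μ h1
    simpa using h2
  have hBi : Integrable (fun z : Y × G => (B.indicator fun _ => (1 : ℂ)) z.2) (ν.prod μ) := by
    refine ExB_int _ ((measurable_const.indicator hB).comp measurable_snd) ⟨1, fun z => ?_⟩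
    by_cases h : z.2 ∈ B <;> simp [h]
  have hRi : Integrable ((A ×ˢ B).indicator fun _ => (1 : ℂ)) (ν.prod μ) := by
    refine ExB_int _ (measurable_const.indicator (hA.prod hB)) ⟨1, fun z => ?_⟩
    by_cases h : z ∈ A ×ˢ B <;> simp [h]
  calc ∫ z, ‖(A ×ˢ B).indicator (fun _ => (1 : ℂ)) z -
        (A.indicator (fun _ => (1 : ℂ))) z.1 * g z.2‖ ∂(ν.prod μ)
      ≤ ∫ z : Y × G, ‖(B.indicator (fun _ => (1 : ℂ))) z.2 - g z.2‖ ∂(ν.prod μ) := by
        refine integral_mono (hRi.sub (ExB_span_int ν μ hmem)).norm (hBi.sub hgi).norm fun z => ?_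
        have h1 : (A ×ˢ B).indicator (fun _ => (1 : ℂ)) z
            = (A.indicator (fun _ => (1 : ℂ))) z.1 * (B.indicator (fun _ => (1 : ℂ))) z.2 := by
          by_cases h : z.1 ∈ A <;> by_cases h' : z.2 ∈ B <;> simp [Set.indicator, Set.mem_prod, h, h']
        simp only
        rw [h1, ← mul_sub, norm_mul]
        calc ‖(A.indicator (fun _ => (1 : ℂ))) z.1‖ *
              ‖(B.indicator (fun _ => (1 : ℂ))) z.2 - g z.2‖
            ≤ 1 * ‖(B.indicator (fun _ => (1 : ℂ))) z.2 - g z.2‖ :=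
              mul_le_mul_of_nonneg_right (hAb z.1) (norm_nonneg _)
          _ = _ := one_mul _
    _ = ∫ x, ‖(B.indicator (fun _ => (1 : ℂ))) x - g x‖ ∂μ := by
        rw [integral_fun_snd (μ := ν) (ν := μ)
          (fun x => ‖(B.indicator (fun _ => (1 : ℂ))) x - g x‖)]
        simp
    _ ≤ ε := hg'

theorem ExB_set (E : Set (Y × G)) (hE : MeasurableSet E) :
    ExB_App ν μ (E.indicator fun _ => (1 : ℂ)) := by
  have hI : ∀ F : Set (Y × G), MeasurableSet F →
      Integrable (F.indicator fun _ => (1 : ℂ)) (ν.prod μ) := by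
    intro F hF
    refine ExB_int _ (measurable_const.indicator hF) ⟨1, fun z => ?_⟩
    by_cases h : z ∈ F <;> simp [h]
  induction E, hE using MeasurableSpace.induction_on_inter generateFrom_prod.symm
    isPiSystem_prod with
  | empty =>
    intro ε hε
    refine ⟨0, Submodule.zero_mem _, ?_⟩
    simp [hε.le]
  | basic t ht =>
    obtain ⟨A, hA, B, hB, rfl⟩ := ht
    exact ExB_rect ν μ A hA B hB
  | compl t htm ih =>
    have h1 : (tᶜ).indicator (fun _ => (1 : ℂ))
        = (Set.univ ×ˢ Set.univ : Set (Y × G)).indicator (fun _ => (1 : ℂ))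
          + fun z => (-1 : ℂ) * t.indicator (fun _ => (1 : ℂ)) z := by
      funext z
      by_cases h : z ∈ t <;> simp [h]
    rw [h1]
    exact ExB_add ν μ (hI _ (MeasurableSet.univ.prod MeasurableSet.univ)) ((hI t htm).const_mul _)
      (ExB_rect ν μ _ MeasurableSet.univ _ MeasurableSet.univ) (ExB_smul ν μ (-1) ih)
  | iUnion s hd hm ih =>
    apply ExB_lim ν μ (hI _ (MeasurableSet.iUnion hm))
    intro ε hε
    -- finite unions
    have hfin : ∀ n : ℕ, ExB_App ν μ ((⋃ i ∈ Finset.range n, s i).indicator fun _ => (1 : ℂ)) := by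
      intro n
      induction n with
      | zero =>
        intro ε hε
        refine ⟨0, Submodule.zero_mem _, ?_⟩
        simp [hε.le]
      | succ n ihn =>
        have h1 : (⋃ i ∈ Finset.range (n + 1), s i).indicator (fun _ => (1 : ℂ))
            = (⋃ i ∈ Finset.range n, s i).indicator (fun _ => (1 : ℂ))
              + (s n).indicator (fun _ => (1 : ℂ)) := by
          have h2 : (⋃ i ∈ Finset.range (n + 1), s i) = (⋃ i ∈ Finset.range n, s i) ∪ s n := by
            rw [Finset.range_add_one, Finset.set_biUnion_insert, Set.union_comm]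
          rw [h2]
          apply Set.indicator_union_of_disjoint
          simp only [Set.disjoint_iUnion_left]
          intro i hi
          exact hd (Finset.mem_range.1 hi).ne
        rw [h1]
        exact ExB_add ν μ (hI _ (Finset.measurableSet_biUnion _ fun i _ => hm i)) (hI _ (hm n))
          ihn (ih n)
    -- the measure of the rest
    have hmeas : Tendsto (fun n : ℕ => (ν.prod μ) (⋃ i ∈ Finset.range n, s i)) atTop
        (𝓝 ((ν.prod μ) (⋃ i, s i))) := by
      have hmono : Monotone fun n : ℕ => ⋃ i ∈ Finset.range n, s i := by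
        intro a b hab
        exact Set.biUnion_subset_biUnion_left (Finset.range_mono hab)
      have h2 : (⋃ i, s i) = ⋃ n : ℕ, ⋃ i ∈ Finset.range n, s i := by
        ext z
        simp only [Set.mem_iUnion, Finset.mem_range, exists_prop]
        constructor
        · rintro ⟨i, hi⟩
          exact ⟨i + 1, i, Nat.lt_succ_self i, hi⟩
        · rintro ⟨_, i, _, hi⟩
          exact ⟨i, hi⟩
      rw [h2]
      exact tendsto_measure_iUnion_atTop hmono
    have hreal : Tendsto (fun n : ℕ => (ν.prod μ).real (⋃ i ∈ Finset.range n, s i)) atTop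
        (𝓝 ((ν.prod μ).real (⋃ i, s i))) :=
      (ENNReal.tendsto_toReal (measure_ne_top _ _)).comp hmeas
    obtain ⟨n, hn⟩ := (hreal.eventually (lt_mem_nhds (sub_lt_self _ hε))).exists
    refine ⟨_, hI _ (Finset.measurableSet_biUnion (Finset.range n) fun i _ => hm i), hfin n, ?_⟩
    set U : Set (Y × G) := ⋃ i, s i with hU
    set W : Set (Y × G) := ⋃ i ∈ Finset.range n, s i with hW
    have hWU : W ⊆ U := Set.iUnion₂_subset fun i _ => Set.subset_iUnion s i
    have hWm : MeasurableSet W := Finset.measurableSet_biUnion (Finset.range n) fun i _ => hm i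
    have hUm : MeasurableSet U := MeasurableSet.iUnion hm
    have h3 : ∀ z, ‖U.indicator (fun _ => (1 : ℂ)) z - W.indicator (fun _ => (1 : ℂ)) z‖
        = (U \ W).indicator (fun _ => (1 : ℝ)) z := by
      intro z
      by_cases h : z ∈ W
      · have h' : z ∈ U := hWU h
        simp [h, h']
      · by_cases h' : z ∈ U <;> simp [h, h']
    simp only [h3]
    rw [integral_indicator_const _ (hUm.diff hWm), smul_eq_mul, mul_one,
      measureReal_sdiff hWU hWm]
    linarith

end

theorem dens {Y G : Type*} [MeasurableSpace Y] (ν : Measure Y) [IsProbabilityMeasure ν]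
    [CommGroup G] [TopologicalSpace G] [IsTopologicalGroup G] [CompactSpace G] [T2Space G]
    [SecondCountableTopology G] [MeasurableSpace G] [BorelSpace G] (μ : Measure G)
    [μ.IsHaarMeasure] [IsProbabilityMeasure μ] (f : Y × G → ℂ) (hf : Measurable f)
    (hfi : Integrable f (ν.prod μ)) (ε : ℝ) (hε : 0 < ε) :
    ∃ g ∈ Submodule.span ℂ (elem Y G), ∫ z, ‖f z - g z‖ ∂(ν.prod μ) ≤ ε := by
  have key : ExB_App ν μ f := by
    refine Integrable.induction (μ := ν.prod μ) (P := ExB_App ν μ) ?_ ?_ ?_ ?_ hfi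
    · intro c s hs _
      have h1 : (s.indicator fun _ => c) = fun z => c * s.indicator (fun _ => (1 : ℂ)) z := by
        funext z
        by_cases h : z ∈ s <;> simp [h]
      rw [h1]
      exact ExB_smul ν μ c (ExB_set ν μ s hs)
    · intro f g _ hf hg hf' hg'
      exact ExB_add ν μ hf hg hf' hg'
    · rw [← closure_subset_iff_isClosed]
      intro F hF
      refine ExB_lim ν μ (L1.integrable_coeFn F) fun ε hε => ?_
      obtain ⟨H, hH, hd⟩ := Metric.mem_closure_iff.1 hF ε hε
      refine ⟨H, L1.integrable_coeFn H, hH, ?_⟩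
      rw [dist_eq_norm, L1.norm_eq_integral_norm] at hd
      refine le_trans (le_of_eq ?_) hd.le
      apply integral_congr_ae
      filter_upwards [Lp.coeFn_sub F H] with z hz
      rw [hz, Pi.sub_apply]
    · intro f g hfg _ hf' ε hε
      obtain ⟨a, ha, ha'⟩ := hf' ε hε
      refine ⟨a, ha, le_trans (le_of_eq ?_) ha'⟩
      apply integral_congr_ae
      filter_upwards [hfg] with z hz
      rw [hz]
  exact key ε hε

theorem ExB_fib {Y G : Type*} [MeasurableSpace Y]
    [CommGroup G] [TopologicalSpace G] [IsTopologicalGroup G] [CompactSpace G] [T2Space G]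
    [SecondCountableTopology G] [MeasurableSpace G] [BorelSpace G] (μ : Measure G)
    [μ.IsHaarMeasure] [IsProbabilityMeasure μ] {g : Y × G → ℂ}
    (hg : g ∈ Submodule.span ℂ (elem Y G)) :
    (fun z : Y × G => g z - ∫ x, g (z.1, x) ∂μ) ∈ Submodule.span ℂ (elem0 Y G) := by
  have hfi : ∀ {g : Y × G → ℂ}, g ∈ Submodule.span ℂ (elem Y G) → ∀ y,
      Integrable (fun x => g (y, x)) μ := by
    intro g hg y
    obtain ⟨h1, C, hC⟩ := ExB_meas hg
    exact ExB_int μ (h1.comp measurable_prodMk_left) ⟨C, fun x => hC _⟩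
  induction hg using Submodule.span_induction with
  | mem x hx =>
    obtain ⟨u, χ, hu, hb, rfl⟩ := hx
    simp only [integral_const_mul]
    by_cases hχ : χ = 1
    · have : (fun z : Y × G => u z.1 * (χ z.2 : ℂ) - u z.1 * ∫ x, (χ x : ℂ) ∂μ) = 0 := by
        funext z
        subst hχ
        simp
      rw [this]
      exact Submodule.zero_mem _
    · rw [orth μ χ hχ]
      refine Submodule.subset_span ⟨u, χ, hu, hb, hχ, ?_⟩
      funext z
      ring
  | zero =>
    have : (fun z : Y × G => (0 : Y × G → ℂ) z - ∫ x, (0 : Y × G → ℂ) (z.1, x) ∂μ) = 0 := by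
      funext z; simp
    rw [this]
    exact Submodule.zero_mem _
  | add x y hx0 hy0 hx hy =>
    have : (fun z : Y × G => (x + y) z - ∫ t, (x + y) (z.1, t) ∂μ)
        = (fun z : Y × G => x z - ∫ t, x (z.1, t) ∂μ) + (fun z => y z - ∫ t, y (z.1, t) ∂μ) := by
      funext z
      simp only [Pi.add_apply]
      rw [integral_add (hfi hx0 z.1) (hfi hy0 z.1)]
      ring
    rw [this]
    exact Submodule.add_mem _ hx hy
  | smul a x _ hx =>
    have : (fun z : Y × G => (a • x) z - ∫ t, (a • x) (z.1, t) ∂μ)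
        = a • (fun z : Y × G => x z - ∫ t, x (z.1, t) ∂μ) := by
      funext z
      simp only [Pi.smul_apply, smul_eq_mul]
      rw [integral_const_mul]
      ring
    rw [this]
    exact Submodule.smul_mem _ a hx

theorem dens0 {Y G : Type*} [MeasurableSpace Y] (ν : Measure Y) [IsProbabilityMeasure ν]
    [CommGroup G] [TopologicalSpace G] [IsTopologicalGroup G] [CompactSpace G] [T2Space G]
    [SecondCountableTopology G] [MeasurableSpace G] [BorelSpace G] (μ : Measure G)
    [μ.IsHaarMeasure] [IsProbabilityMeasure μ] (f : Y × G → ℂ) (hf : Measurable f)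
    (hfi : Integrable f (ν.prod μ)) (hf0 : ∀ y, ∫ x, f (y, x) ∂μ = 0) (ε : ℝ) (hε : 0 < ε) :
    ∃ g ∈ Submodule.span ℂ (elem0 Y G), ∫ z, ‖f z - g z‖ ∂(ν.prod μ) ≤ ε := by
  obtain ⟨g, hg, hg'⟩ := dens ν μ f hf hfi (ε / 2) (by linarith)
  refine ⟨_, ExB_fib μ hg, ?_⟩
  obtain ⟨hgm, C, hC⟩ := ExB_meas hg
  have hgi : Integrable g (ν.prod μ) := ExB_int _ hgm ⟨C, hC⟩
  have hd : Integrable (fun z => f z - g z) (ν.prod μ) := hfi.sub hgi
  have hav : Integrable (fun z : Y × G => ∫ x, g (z.1, x) ∂μ) (ν.prod μ) := by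
    refine ExB_int _ ?_ ⟨C, fun z => ?_⟩
    · exact (hgm.stronglyMeasurable.integral_prod_right').measurable.comp measurable_fst
    · have h1 := norm_integral_le_of_norm_le_const (μ := μ) (f := fun x => g (z.1, x)) (C := C)
        (Eventually.of_forall fun x => hC _)
      simpa using h1
  have h2 : ∫ z : Y × G, ‖∫ x, g (z.1, x) ∂μ‖ ∂(ν.prod μ)
      ≤ ∫ z, ‖f z - g z‖ ∂(ν.prod μ) := by
    rw [integral_prod _ hd.norm, integral_prod _ hav.norm]
    simp only [integral_const, probReal_univ, one_smul]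
    refine integral_mono_ae ?_ ?_ ?_
    · have := hav.norm.integral_prod_left
      simpa using this
    · exact hd.norm.integral_prod_left
    · filter_upwards [hfi.prod_right_ae] with y hy
      have hgy : Integrable (fun x => g (y, x)) μ :=
        ExB_int μ (hgm.comp measurable_prodMk_left) ⟨C, fun x => hC _⟩
      have h3 : ∫ x, g (y, x) ∂μ = -∫ x, (f (y, x) - g (y, x)) ∂μ := by
        rw [integral_sub hy hgy, hf0 y]
        ring
      rw [h3, norm_neg]
      exact norm_integral_le_integral_norm _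
  calc ∫ z : Y × G, ‖f z - (g z - ∫ x, g (z.1, x) ∂μ)‖ ∂(ν.prod μ)
      ≤ ∫ z : Y × G, (‖f z - g z‖ + ‖∫ x, g (z.1, x) ∂μ‖) ∂(ν.prod μ) := by
        refine integral_mono (hfi.sub (hgi.sub hav)).norm (hd.norm.add hav.norm) fun z => ?_
        have : f z - (g z - ∫ x, g (z.1, x) ∂μ) = (f z - g z) + ∫ x, g (z.1, x) ∂μ := by ring
        simp only
        rw [this]
        exact norm_add_le _ _
    _ = ∫ z, ‖f z - g z‖ ∂(ν.prod μ) + ∫ z : Y × G, ‖∫ x, g (z.1, x) ∂μ‖ ∂(ν.prod μ) :=
        integral_add hd.norm hav.norm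
    _ ≤ ε := by linarith

end Pool.Agent.EXT
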