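import Pool.Agent.CAM.Clo
import Pool.Agent.CAM.Cor

set_option autoImplicit false

/-! Module ExC: closure principle with limit zero for complex functions, and the passage from elementary functions to bounded functions.
`clo0`: as `CAM.clo` with limit `0` (same proof).
`mult0`: `Φ0` for the index `i0`, `Φ` for the others; as `CAM.mult`: first (for `f i ∈ Φ`, `i ≠ i0`) pass from `Φ0` to all bounded `f i0` which are `L¹`-limits of `span Φ0`, then treat the other indices one by one. -/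

open Finset Filter Topology MeasureTheory

namespace Pool.Agent.EXT

open Pool.Agent.CAM

theorem ExC_add {s t : ℕ → ℂ} (hs : Tendsto (ces s) atTop (𝓝 0)) (ht : Tendsto (ces t) atTop (𝓝 0)) :
    Tendsto (ces (fun n => s n + t n)) atTop (𝓝 0) := by
  have h := hs.add ht
  rw [add_zero] at h
  refine h.congr fun N => ?_
  simp only [ces, Finset.sum_add_distrib, mul_add]

theorem ExC_smul {s : ℕ → ℂ} (c : ℂ) (hs : Tendsto (ces s) atTop (𝓝 0)) :
    Tendsto (ces (fun n => c * s n)) atTop (𝓝 0) := by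
  have h := hs.const_mul c
  rw [mul_zero] at h
  refine h.congr fun N => ?_
  simp only [ces, ← Finset.mul_sum]
  ring

theorem ExC_zero : Tendsto (ces (fun _ => (0 : ℂ))) atTop (𝓝 0) := by
  refine tendsto_const_nhds.congr fun N => ?_
  simp [ces]

theorem ExC_approx {s : ℕ → ℂ}
    (h : ∀ ε : ℝ, 0 < ε → ∃ t : ℕ → ℂ, Tendsto (ces t) atTop (𝓝 0) ∧ ∀ N, ‖ces s N - ces t N‖ ≤ ε) :
    Tendsto (ces s) atTop (𝓝 0) := by
  rw [Metric.tendsto_atTop]
  intro ε hε
  obtain ⟨t, hL, ht⟩ := h (ε / 2) (by positivity)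
  obtain ⟨N₀, hN₀⟩ := (Metric.tendsto_atTop.mp hL) (ε / 2) (by positivity)
  refine ⟨N₀, fun n hn => ?_⟩
  have h1 := ht n
  have h3 := hN₀ n hn
  rw [dist_eq_norm, sub_zero] at h3 ⊢
  calc ‖ces s n‖ = ‖(ces s n - ces t n) + ces t n‖ := by
        congr 1; ring
    _ ≤ ‖ces s n - ces t n‖ + ‖ces t n‖ := norm_add_le _ _
    _ < ε := by linarith

theorem clo0 {Ω : Type*} [MeasurableSpace Ω] (μ : Measure Ω) [IsProbabilityMeasure μ] (T : Ω → Ω)
    (hT : MeasurePreserving T μ μ) (w : ℕ → Ω → ℂ) (C : ℝ) (hw : ∀ n x, ‖w n x‖ ≤ C) (f : Ω → ℂ)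
    (hfm : Measurable f) (hf : Integrable f μ)
    (h : ∀ ε : ℝ, 0 < ε → ∃ g : Ω → ℂ, Measurable g ∧ Integrable g μ ∧ ∫ x, ‖f x - g x‖ ∂μ ≤ ε ∧
      ∀ᵐ x ∂μ, Tendsto (ces (fun n => g (T^[n] x) * w n x)) atTop (𝓝 0)) :
    ∀ᵐ x ∂μ, Tendsto (ces (fun n => f (T^[n] x) * w n x)) atTop (𝓝 0) := by
  have h4 : ∀ j : ℕ, ∃ g : Ω → ℂ, Measurable g ∧ Integrable g μ ∧
      ∫ x, ‖f x - g x‖ ∂μ ≤ (1 / 2 : ℝ) ^ j * (1 / 2 : ℝ) ^ j ∧
      ∀ᵐ x ∂μ, Tendsto (ces (fun n => g (T^[n] x) * w n x)) atTop (𝓝 0) := fun j => h _ (by positivity)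
  choose g hgm hgi hgε hgc using h4
  let B : ℕ → Set Ω := fun j =>
    {x | ∃ N : ℕ, (1 / 2 : ℝ) ^ j * N < ∑ n ∈ range N, ‖f (T^[n] x) - g j (T^[n] x)‖}
  have hB : ∀ j, μ (B j) ≤ ENNReal.ofReal ((1 / 2 : ℝ) ^ j) := by
    intro j
    have hm : Measurable (fun x => ‖f x - g j x‖) := (hfm.sub (hgm j)).norm
    have hi : Integrable (fun x => ‖f x - g j x‖) μ := (hf.sub (hgi j)).norm
    have h1 := max_erg μ T hT (fun x => ‖f x - g j x‖) (fun x => norm_nonneg _) hm hi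
      ((1 / 2 : ℝ) ^ j) (by positivity)
    refine h1.trans (ENNReal.ofReal_le_ofReal ?_)
    rw [div_le_iff₀ (by positivity)]
    exact hgε j
  have hsum : ∑' j, μ (B j) ≠ ⊤ := by
    refine ne_top_of_le_ne_top ?_ (ENNReal.tsum_le_tsum hB)
    rw [← ENNReal.ofReal_tsum_of_nonneg (fun j => by positivity) summable_geometric_two]
    exact ENNReal.ofReal_ne_top
  have hBC := ae_eventually_notMem hsum
  have hC : ∀ᵐ x ∂μ, ∀ j, Tendsto (ces (fun n => g j (T^[n] x) * w n x)) atTop (𝓝 0) :=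
    ae_all_iff.mpr hgc
  filter_upwards [hBC, hC] with x hx hxc
  have hC0 : 0 ≤ C := (norm_nonneg _).trans (hw 0 x)
  refine ExC_approx fun ε hε => ?_
  have hlim : Tendsto (fun j : ℕ => C * (1 / 2 : ℝ) ^ j) atTop (𝓝 0) := by
    simpa using (tendsto_pow_atTop_nhds_zero_of_lt_one (by norm_num : (0 : ℝ) ≤ 1 / 2)
      (by norm_num)).const_mul C
  obtain ⟨j, hj1, hj2⟩ := ((hlim.eventually (gt_mem_nhds hε)).and hx).exists
  refine ⟨_, hxc j, fun N => ?_⟩
  refine le_trans ?_ hj1.le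
  refine Clo_ces_le (fun n => f (T^[n] x)) (fun n => g j (T^[n] x)) (fun n => w n x) C
    ((1 / 2 : ℝ) ^ j) hC0 (fun n => hw n x) (by positivity) N ?_
  by_contra hcon
  exact hj2 ⟨N, not_le.mp hcon⟩

theorem mult0 {Ω : Type*} [MeasurableSpace Ω] (μ : Measure Ω) [IsProbabilityMeasure μ] {k : ℕ}
    (T : Fin k → Ω → Ω) (hT : ∀ i, MeasurePreserving (T i) μ μ) (i0 : Fin k)
    (Φ Φ0 : Set (Ω → ℂ)) (hΦm : ∀ φ ∈ Φ, Measurable φ) (hΦb : ∀ φ ∈ Φ, ∃ C : ℝ, ∀ x, ‖φ x‖ ≤ C)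
    (hsub : Φ0 ⊆ Φ)
    (hdense : ∀ f : Ω → ℂ, Measurable f → Integrable f μ → ∀ ε : ℝ, 0 < ε →
      ∃ g ∈ Submodule.span ℂ Φ, ∫ x, ‖f x - g x‖ ∂μ ≤ ε)
    (hΦ : ∀ φ : Fin k → Ω → ℂ, φ i0 ∈ Φ0 → (∀ i, i ≠ i0 → φ i ∈ Φ) →
      ∀ᵐ x ∂μ, Tendsto (ces (fun n => ∏ i, φ i ((T i)^[n] x))) atTop (𝓝 0))
    (f : Fin k → Ω → ℂ) (hf : ∀ i, Measurable (f i)) (hb : ∀ i, ∃ C : ℝ, ∀ x, ‖f i x‖ ≤ C)
    (hf0 : ∀ ε : ℝ, 0 < ε → ∃ g ∈ Submodule.span ℂ Φ0, ∫ x, ‖f i0 x - g x‖ ∂μ ≤ ε) :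
    ∀ᵐ x ∂μ, Tendsto (ces (fun n => ∏ i, f i ((T i)^[n] x))) atTop (𝓝 0) := by
  classical
  set Ψ : Fin k → Set (Ω → ℂ) := fun i => if i = i0 then Φ0 else Φ with hΨ
  have hΨ0 : Ψ i0 = Φ0 := by rw [hΨ]; simp
  have hΨ1 : ∀ i, i ≠ i0 → Ψ i = Φ := by intro i hi; rw [hΨ]; simp [hi]
  have hΨsub : ∀ i, Ψ i ⊆ Φ := by
    intro i
    by_cases hi : i = i0
    · rw [hi, hΨ0]; exact hsub
    · rw [hΨ1 i hi]
  have main : ∀ s : Finset (Fin k), ∀ f : Fin k → Ω → ℂ, (∀ i, i ∉ s → f i ∈ Ψ i) →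
      (∀ i ∈ s, Measurable (f i) ∧ (∃ C : ℝ, ∀ x, ‖f i x‖ ≤ C) ∧
        ∀ ε : ℝ, 0 < ε → ∃ g ∈ Submodule.span ℂ (Ψ i), ∫ x, ‖f i x - g x‖ ∂μ ≤ ε) →
      ∀ᵐ x ∂μ, Tendsto (ces (fun n => ∏ i, f i ((T i)^[n] x))) atTop (𝓝 0) := by
    intro s
    induction s using Finset.induction_on with
    | empty =>
      intro f hf _
      refine hΦ f ?_ fun i hi => ?_
      · have := hf i0 (Finset.notMem_empty i0)
        rwa [hΨ0] at this
      · have := hf i (Finset.notMem_empty i)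
        rwa [hΨ1 i hi] at this
    | insert j s hj ih =>
      intro f hfΦ hfs
      have hmb : ∀ i, Measurable (f i) ∧ ∃ C : ℝ, ∀ x, ‖f i x‖ ≤ C := by
        intro i
        by_cases hi : i ∈ insert j s
        · exact ⟨(hfs i hi).1, (hfs i hi).2.1⟩
        · exact ⟨hΦm _ (hΨsub i (hfΦ i hi)), hΦb _ (hΨsub i (hfΦ i hi))⟩
      choose hm C hC using hmb
      set w : ℕ → Ω → ℂ := fun n x => ∏ i ∈ Finset.univ.erase j, f i ((T i)^[n] x) with hw
      have hprod : ∀ (g : Ω → ℂ) (n : ℕ) (x : Ω),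
          ∏ i, (Function.update f j g) i ((T i)^[n] x) = g ((T j)^[n] x) * w n x := by
        intro g n x
        rw [← Finset.mul_prod_erase Finset.univ _ (Finset.mem_univ j), Function.update_self, hw]
        congr 1
        refine Finset.prod_congr rfl fun i hi => ?_
        rw [Function.update_of_ne (Finset.ne_of_mem_erase hi)]
      have hwb : ∀ n x, ‖w n x‖ ≤ ∏ i ∈ Finset.univ.erase j, C i := by
        intro n x
        rw [hw, norm_prod]
        exact Finset.prod_le_prod (fun i _ => norm_nonneg _) fun i _ => hC i _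
      have hint : ∀ g : Ω → ℂ, Measurable g → (∃ D : ℝ, ∀ x, ‖g x‖ ≤ D) → Integrable g μ := by
        intro g hg ⟨D, hD⟩
        exact Integrable.of_bound hg.aestronglyMeasurable D (Eventually.of_forall hD)
      have hspan : ∀ g ∈ Submodule.span ℂ (Ψ j), (Measurable g ∧ Integrable g μ) ∧
          ∀ᵐ x ∂μ, Tendsto (ces (fun n => g ((T j)^[n] x) * w n x)) atTop (𝓝 0) := by
        intro g hg
        induction hg using Submodule.span_induction with
        | mem g hg =>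
          have hg' := hΨsub j hg
          refine ⟨⟨hΦm g hg', hint g (hΦm g hg') (hΦb g hg')⟩, ?_⟩
          have h1 := ih (Function.update f j g) ?_ ?_
          · filter_upwards [h1] with x hx
            simpa only [hprod] using hx
          · intro i hi
            by_cases hij : i = j
            · subst hij
              rw [Function.update_self]
              exact hg
            · rw [Function.update_of_ne hij]
              exact hfΦ i fun hmem => (Finset.mem_insert.mp hmem).elim hij hi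
          · intro i hi
            have hij : i ≠ j := fun e => hj (e ▸ hi)
            rw [Function.update_of_ne hij]
            exact hfs i (Finset.mem_insert_of_mem hi)
        | zero =>
          refine ⟨⟨measurable_zero, integrable_zero _ _ _⟩, Eventually.of_forall fun x => ?_⟩
          simpa only [Pi.zero_apply, zero_mul] using ExC_zero
        | add g h _ _ hg hh =>
          refine ⟨⟨hg.1.1.add hh.1.1, hg.1.2.add hh.1.2⟩, ?_⟩
          filter_upwards [hg.2, hh.2] with x h1 h2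
          simpa only [Pi.add_apply, add_mul] using ExC_add h1 h2
        | smul c g _ hg =>
          refine ⟨⟨hg.1.1.const_smul c, hg.1.2.smul c⟩, ?_⟩
          filter_upwards [hg.2] with x h1
          simpa only [Pi.smul_apply, smul_eq_mul, mul_assoc] using ExC_smul c h1
      have hclo := clo0 μ (T j) (hT j) w _ hwb (f j) (hm j) (hint _ (hm j) ⟨C j, hC j⟩) ?_
      · filter_upwards [hclo] with x hx
        have e : (fun n => ∏ i, f i ((T i)^[n] x)) = fun n => f j ((T j)^[n] x) * w n x := by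
          funext n
          have := hprod (f j) n x
          rwa [Function.update_eq_self] at this
        rw [e]
        exact hx
      · intro ε hε
        obtain ⟨g, hg, hgε⟩ := (hfs j (Finset.mem_insert_self j s)).2.2 ε hε
        obtain ⟨⟨h1, h2⟩, h3⟩ := hspan g hg
        exact ⟨g, h1, h2, hgε, h3⟩
  refine main Finset.univ f (fun i hi => absurd (Finset.mem_univ i) hi) fun i _ =>
    ⟨hf i, hb i, fun ε hε => ?_⟩
  by_cases hi : i = i0
  · rw [hi, hΨ0]
    exact hf0 ε hε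
  · rw [hΨ1 i hi]
    obtain ⟨D, hD⟩ := hb i
    exact hdense (f i) (hf i)
      (Integrable.of_bound (hf i).aestronglyMeasurable D (Eventually.of_forall hD)) ε hε

end Pool.Agent.EXT
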