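import Pool.Agent.EXT.ExA
import Pool.Agent.EXT.ExB
import Pool.Agent.EXT.ExC

set_option autoImplicit false

/-! Module ExD: skew products.  `T i (y, x) = (S i y, φ i y * α i x)`, `(T i)^n (y, x) = (S_i^n y, c_i^n(y) * α_i^n x)` with measurable `c_i^n` (induction on `n`).
`T i` preserves `ν × μ` (`MeasurePreserving.skew_product` or `lintegral` computation; `x ↦ g * α i x` preserves `μ`).
`ext_chars`: for `φ i = u_i ⊗ χ_i`, `χ_{i0} ≠ 1`: the product is `F n (y, x) = w n y * ∏_i χ_i (α_i^n x)`, `w n y = ∏ u_i (S_i^n y) χ_i (c_i^n y)` bounded by `∏ C_i` (divide by `∏ (C_i + 1)`), and `∏_i χ_i ∘ α_i^n = ev (g n)`, `g n = ∑_i t_i^n • χ_i` in `Γ = Additive (G →ₜ* Circle)`, where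
`t_i` is composition with `α_i`, in the commutative subring of `AddMonoid.End Γ` generated by the `t_i` (see the proof of `CAM.aff`).  `CAM.sparse` with `Co n m = (g n - g m = 0)`, `D = k - 1`: `no_cube`; orthogonality: Fubini and `CAM.orth`.
`ext_main`: `mult0` with `Φ = elem Y G`, `Φ0 = elem0 Y G`, `f i0` replaced by `f i0 - E`, `E z = ∫ f i0 (z.1, x) dμ(x)`; `dens`, `dens0`. -/

open Finset Filter Topology MeasureTheory

namespace Pool.Agent.EXT

open Pool.Agent.CAM

theorem skew_mp {Y G : Type*} [MeasurableSpace Y] (ν : Measure Y) [IsProbabilityMeasure ν]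
    [CommGroup G] [TopologicalSpace G] [IsTopologicalGroup G] [CompactSpace G] [T2Space G]
    [SecondCountableTopology G] [MeasurableSpace G] [BorelSpace G] (μ : Measure G)
    [μ.IsHaarMeasure] [IsProbabilityMeasure μ] (S : Y → Y) (hS : MeasurePreserving S ν ν)
    (α : G ≃ₜ* G) (c : Y → G) (hc : Measurable c) (T : Y × G → Y × G)
    (hT : ∀ z, T z = (S z.1, c z.1 * α z.2)) : MeasurePreserving T (ν.prod μ) (ν.prod μ) := by
  have h1 : MeasurePreserving α μ μ :=
    MonoidHom.measurePreserving (f := (α : G →* G)) α.continuous α.surjective rfl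
  have hT' : T = fun p : Y × G => (S p.1, (fun y x => c y * α x) p.1 p.2) := by
    funext z; rw [hT]
  rw [hT']
  refine MeasurePreserving.skew_product (μa := ν) (μb := ν) (μc := μ) (μd := μ) hS
    (g := fun y x => c y * α x) ?_ ?_
  · have h2 : Measurable fun p : Y × G => α p.2 := α.continuous.measurable.comp measurable_snd
    exact (hc.comp measurable_fst).mul h2
  · refine Filter.Eventually.of_forall fun y => ?_
    have h2 : MeasurePreserving (fun x => c y * x) μ μ := measurePreserving_mul_left μ (c y)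
    exact (h2.comp h1).map_eq

/-- the cocycle `c^n` -/
def ExD_co {Y G : Type*} [CommGroup G] (S : Y → Y) (α : G → G) (c : Y → G) : ℕ → Y → G
  | 0, _ => 1
  | (n + 1), y => c (S^[n] y) * α (ExD_co S α c n y)

theorem ExD_co_iter {Y G : Type*} [CommGroup G] [TopologicalSpace G] (S : Y → Y) (α : G ≃ₜ* G)
    (c : Y → G) (T : Y × G → Y × G) (hT : ∀ z, T z = (S z.1, c z.1 * α z.2)) (n : ℕ) (z : Y × G) :
    T^[n] z = (S^[n] z.1, ExD_co S α c n z.1 * (α)^[n] z.2) := by
  induction n with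
  | zero => simp [ExD_co]
  | succ n ih =>
    rw [Function.iterate_succ_apply', ih, hT, Function.iterate_succ_apply',
      Function.iterate_succ_apply']
    simp only [ExD_co, map_mul, mul_assoc]

theorem ExD_co_meas {Y G : Type*} [MeasurableSpace Y] [CommGroup G] [TopologicalSpace G]
    [IsTopologicalGroup G] [SecondCountableTopology G] [MeasurableSpace G] [BorelSpace G]
    (S : Y → Y) (hS : Measurable S) (α : G ≃ₜ* G) (c : Y → G) (hc : Measurable c) (n : ℕ) :
    Measurable (ExD_co S α c n) := by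
  induction n with
  | zero => exact measurable_const
  | succ n ih =>
    exact (hc.comp (hS.iterate n)).mul (α.continuous.measurable.comp ih)

/-- composition with `α` -/
noncomputable def ExD_tau {G : Type*} [CommGroup G] [TopologicalSpace G] (α : G ≃ₜ* G) :
    AddMonoid.End (Additive (G →ₜ* Circle)) where
  toFun a := Additive.ofMul ((Additive.toMul a).comp ⟨(α : G →* G), α.continuous⟩)
  map_zero' := rfl
  map_add' _ _ := rfl

theorem ExD_tau_apply {G : Type*} [CommGroup G] [TopologicalSpace G] (α : G ≃ₜ* G)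
    (a : Additive (G →ₜ* Circle)) (x : G) :
    (Additive.toMul (ExD_tau α a)) x = (Additive.toMul a) (α x) := rfl

theorem ExD_inj {G : Type*} [CommGroup G] [TopologicalSpace G] {a b : Additive (G →ₜ* Circle)}
    (h : ∀ x, (Additive.toMul a) x = (Additive.toMul b) x) : a = b :=
  Additive.toMul.injective (ContinuousMonoidHom.ext h)

open scoped IsMulCommutative in
/-- the algebraic part -/
theorem ExD_alg {G : Type*} [CommGroup G] [TopologicalSpace G] [IsTopologicalGroup G] {k : ℕ}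
    (α : Fin k → (G ≃ₜ* G)) (hα : ∀ i j x, α i (α j x) = α j (α i x)) (i0 : Fin k)
    (h1 : ∀ χ : G →ₜ* Circle, χ ≠ 1 → ∀ h : ℕ, 1 ≤ h → ∃ x, χ ((α i0)^[h] x) ≠ χ x)
    (h2 : ∀ j, j ≠ i0 → ∀ χ : G →ₜ* Circle, χ ≠ 1 → ∀ h : ℕ, 1 ≤ h →
      ∃ x, χ ((α i0)^[h] x) ≠ χ ((α j)^[h] x))
    (χ : Fin k → (G →ₜ* Circle)) (hχ : χ i0 ≠ 1) :
    ∃ g : ℕ → (G →ₜ* Circle), (∀ n x, g n x = ∏ i, χ i ((α i)^[n] x)) ∧
      ∀ h : ℕ, 1 ≤ h → ∀ (es : List ℕ) (n : ℕ), es.length = k → (∀ e ∈ es, 1 ≤ e) →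
      ¬ HasCube es {m | g (m + h) = g m} n := by
  classical
  let τ : Fin k → AddMonoid.End (Additive (G →ₜ* Circle)) := fun i => ExD_tau (α i)
  have hc : ∀ x ∈ Set.range τ, ∀ y ∈ Set.range τ, x * y = y * x := by
    rintro _ ⟨i, rfl⟩ _ ⟨j, rfl⟩
    ext a : 1
    apply ExD_inj
    intro x
    change (Additive.toMul a) (α j (α i x)) = (Additive.toMul a) (α i (α j x))
    rw [hα]
  have hcm : IsMulCommutative (Subring.closure (Set.range τ)) := Subring.isMulCommutative_closure hc
  let A := Subring.closure (Set.range τ)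
  let t : Fin k → A := fun i => ⟨τ i, Subring.subset_closure ⟨i, rfl⟩⟩
  let φ : Fin k → Additive (G →ₜ* Circle) := fun i => Additive.ofMul (χ i)
  have ht : ∀ i (a : Additive (G →ₜ* Circle)), t i • a = τ i a := fun i a => rfl
  have htn : ∀ i (n : ℕ) (a : Additive (G →ₜ* Circle)) (x : G),
      (Additive.toMul (t i ^ n • a)) x = (Additive.toMul a) ((α i)^[n] x) := by
    intro i n
    induction n with
    | zero => intro a x; rw [pow_zero, one_smul]; rfl
    | succ n ih =>
      intro a x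
      rw [pow_succ, mul_smul, ht, ih, ExD_tau_apply, ← Function.iterate_succ_apply' (α i)]
  have hev : ∀ n x, (Additive.toMul (∑ i, t i ^ n • φ i)) x = ∏ i, χ i ((α i)^[n] x) := by
    intro n x
    have h1 : ∀ s : Finset (Fin k), (Additive.toMul (∑ i ∈ s, t i ^ n • φ i)) x
        = ∏ i ∈ s, χ i ((α i)^[n] x) := by
      intro s
      induction s using Finset.induction_on with
      | empty => rw [Finset.sum_empty, Finset.prod_empty]; rfl
      | insert i s hi ih =>
        rw [Finset.sum_insert hi, Finset.prod_insert hi, ← ih]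
        change (Additive.toMul (t i ^ n • φ i)) x * _ = _
        rw [htn]
        rfl
    exact h1 _
  refine ⟨fun n => Additive.toMul (∑ i, t i ^ n • φ i), hev, ?_⟩
  intro h hh es n hes hpos hcube
  have hne : ∀ x : Additive (G →ₜ* Circle), x ≠ 0 → Additive.toMul x ≠ 1 := by
    intro x hx hx1
    exact hx (Additive.toMul.injective hx1)
  refine no_cube t φ i0 ?_ ?_ ?_ ?_ h hh es n hes hpos ?_
  · intro h0
    exact hχ (congrArg Additive.toMul h0)
  · intro x hx
    apply ExD_inj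
    intro y
    obtain ⟨z, rfl⟩ := (α i0).surjective y
    have h3 : (Additive.toMul (τ i0 x)) z = 1 := by
      rw [← ht, hx]; rfl
    exact h3
  · intro m hm x hx
    by_contra hx0
    obtain ⟨y, hy⟩ := h1 (Additive.toMul x) (hne x hx0) m hm
    apply hy
    rw [← htn i0 m x y, hx]
  · intro j hj m hm x hx
    by_contra hx0
    obtain ⟨y, hy⟩ := h2 j hj (Additive.toMul x) (hne x hx0) m hm
    apply hy
    rw [← htn i0 m x y, ← htn j m x y, hx]
  · refine HasCube.mono ?_ hcube
    intro m hm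
    have hm' : Additive.toMul (∑ i, t i ^ (m + h) • φ i) = Additive.toMul (∑ i, t i ^ m • φ i) := hm
    exact sub_eq_zero.2 (Additive.toMul.injective hm')

theorem ext_chars {Y G : Type*} [MeasurableSpace Y] (ν : Measure Y) [IsProbabilityMeasure ν]
    [CommGroup G] [TopologicalSpace G] [IsTopologicalGroup G] [CompactSpace G] [T2Space G]
    [SecondCountableTopology G] [MeasurableSpace G] [BorelSpace G] (μ : Measure G)
    [μ.IsHaarMeasure] [IsProbabilityMeasure μ] {k : ℕ} (S : Fin k → Y → Y)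
    (hS : ∀ i, MeasurePreserving (S i) ν ν) (α : Fin k → (G ≃ₜ* G)) (c : Fin k → Y → G)
    (hc : ∀ i, Measurable (c i)) (T : Fin k → Y × G → Y × G)
    (hT : ∀ i z, T i z = (S i z.1, c i z.1 * α i z.2))
    (hα : ∀ i j x, α i (α j x) = α j (α i x)) (i0 : Fin k)
    (h1 : ∀ χ : G →ₜ* Circle, χ ≠ 1 → ∀ h : ℕ, 1 ≤ h → ∃ x, χ ((α i0)^[h] x) ≠ χ x)
    (h2 : ∀ j, j ≠ i0 → ∀ χ : G →ₜ* Circle, χ ≠ 1 → ∀ h : ℕ, 1 ≤ h →
      ∃ x, χ ((α i0)^[h] x) ≠ χ ((α j)^[h] x))
    (f : Fin k → Y × G → ℂ) (hf : ∀ i, f i ∈ elem Y G) (hf0 : f i0 ∈ elem0 Y G) :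
    ∀ᵐ z ∂(ν.prod μ), Tendsto (ces (fun n => ∏ i, f i ((T i)^[n] z))) atTop (𝓝 0) := by
  classical
  -- choose the data, with a non-trivial character at `i0`
  have hch : ∀ i, ∃ (u : Y → ℂ) (χ : G →ₜ* Circle), Measurable u ∧ (∃ C : ℝ, ∀ y, ‖u y‖ ≤ C) ∧
      (i = i0 → χ ≠ 1) ∧ f i = fun z => u z.1 * (χ z.2 : ℂ) := by
    intro i
    by_cases hi : i = i0
    · subst hi
      obtain ⟨u, χ, hu, hC, hχ, he⟩ := hf0
      exact ⟨u, χ, hu, hC, fun _ => hχ, he⟩
    · obtain ⟨u, χ, hu, hC, he⟩ := hf i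
      exact ⟨u, χ, hu, hC, fun h => absurd h hi, he⟩
  choose u χ hu hC hχ he using hch
  choose C hC using hC
  obtain ⟨g, hg, hcube⟩ := ExD_alg α hα i0 h1 h2 χ (hχ i0 rfl)
  let w : ℕ → Y → ℂ := fun n y => ∏ i, u i ((S i)^[n] y) * (χ i (ExD_co (S i) (α i) (c i) n y) : ℂ)
  let B : ℝ := ∏ i, (|C i| + 1)
  have hB : 0 < B := Finset.prod_pos fun i _ => by positivity
  have hwm : ∀ n, Measurable (w n) := by
    intro n
    refine Finset.measurable_prod _ fun i _ => ?_
    refine ((hu i).comp ((hS i).measurable.iterate n)).mul ?_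
    have h3 : Continuous fun x : G => (χ i x : ℂ) :=
      continuous_subtype_val.comp (χ i).continuous_toFun
    exact h3.measurable.comp (ExD_co_meas (S i) (hS i).measurable (α i) (c i) (hc i) n)
  have hwb : ∀ n y, ‖w n y‖ ≤ B := by
    intro n y
    rw [norm_prod]
    refine Finset.prod_le_prod (fun i _ => norm_nonneg _) fun i _ => ?_
    rw [norm_mul, Circle.norm_coe, mul_one]
    have := hC i ((S i)^[n] y)
    have h3 := le_abs_self (C i)
    linarith
  have hprod : ∀ n z, ∏ i, f i ((T i)^[n] z) = w n z.1 * (g n z.2 : ℂ) := by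
    intro n z
    have h3 : (g n z.2 : ℂ) = ∏ i, (χ i ((α i)^[n] z.2) : ℂ) := by
      rw [hg]
      exact map_prod Circle.coeHom _ _
    rw [h3, ← Finset.prod_mul_distrib]
    refine Finset.prod_congr rfl fun i _ => ?_
    rw [ExD_co_iter (S i) (α i) (c i) (T i) (hT i) n z, he i]
    simp only [map_mul, Circle.coe_mul, mul_assoc]
  let F : ℕ → Y × G → ℂ := fun n z => (B : ℂ)⁻¹ * (w n z.1 * (g n z.2 : ℂ))
  have hgm : ∀ n, Measurable fun z : Y × G => (g n z.2 : ℂ) := by
    intro n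
    have h3 : Continuous fun x : G => (g n x : ℂ) :=
      continuous_subtype_val.comp (g n).continuous_toFun
    exact h3.measurable.comp measurable_snd
  have hFm : ∀ n, Measurable (F n) := by
    intro n
    exact (((hwm n).comp measurable_fst).mul (hgm n)).const_mul _
  have hFb : ∀ n z, ‖F n z‖ ≤ 1 := by
    intro n z
    simp only [F]
    rw [norm_mul, norm_mul, Circle.norm_coe, mul_one, norm_inv, Complex.norm_real,
      Real.norm_eq_abs, abs_of_pos hB, inv_mul_le_iff₀ hB, mul_one]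
    exact hwb n z.1
  have horth : ∀ n m, m < n → ¬ (g n = g m) →
      ∫ z, F n z * (starRingEnd ℂ) (F m z) ∂(ν.prod μ) = 0 := by
    intro n m _ hne
    have hint : Integrable (fun z => F n z * (starRingEnd ℂ) (F m z)) (ν.prod μ) :=
      Spr_integrable (ν.prod μ) F (fun n => (hFm n).aestronglyMeasurable) hFb n m
    rw [integral_prod _ hint]
    have h3 : ∀ y, ∫ x, F n (y, x) * (starRingEnd ℂ) (F m (y, x)) ∂μ = 0 := by
      intro y
      have hne' : g n / g m ≠ 1 := by
        intro h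
        exact hne (div_eq_one.1 h)
      have h4 := orth μ (g n / g m) hne'
      have h5 : ∀ x, F n (y, x) * (starRingEnd ℂ) (F m (y, x))
          = ((B : ℂ)⁻¹ * w n y * (starRingEnd ℂ) ((B : ℂ)⁻¹ * w m y)) * (((g n / g m) x : Circle) : ℂ) := by
        intro x
        have h6 : ((g n / g m) x : Circle) = g n x / g m x := rfl
        rw [h6, Circle.coe_div]
        simp only [F, map_mul]
        have h7 : (starRingEnd ℂ) (g m x : ℂ) = ((g m x : Circle) : ℂ)⁻¹ := by
          rw [← Circle.coe_inv_eq_conj, Circle.coe_inv]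
        rw [h7]
        ring
      simp_rw [h5]
      rw [integral_const_mul, h4, mul_zero]
    simp_rw [h3]
    exact integral_zero _ _
  have hk : 0 < k := Fin.pos i0
  have hmain := sparse (ν.prod μ) F (fun n => (hFm n).aestronglyMeasurable) hFb
    (fun n m => g n = g m) horth (k - 1)
    (fun h hh es n hes hpos => hcube h hh es n (by omega) hpos)
  filter_upwards [hmain] with z hz
  have h3 : ces (fun n => ∏ i, f i ((T i)^[n] z)) = fun N => (B : ℂ) * ces (fun n => F n z) N := by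
    funext N
    simp only [ces, F, hprod]
    rw [← Finset.mul_sum]
    have hB' : (B : ℂ) ≠ 0 := by exact_mod_cast hB.ne'
    field_simp
  rw [h3]
  have h4 := hz.const_mul (B : ℂ)
  rwa [mul_zero] at h4

theorem ext_main {Y G : Type*} [MeasurableSpace Y] (ν : Measure Y) [IsProbabilityMeasure ν]
    [CommGroup G] [TopologicalSpace G] [IsTopologicalGroup G] [CompactSpace G] [T2Space G]
    [SecondCountableTopology G] [MeasurableSpace G] [BorelSpace G] (μ : Measure G)
    [μ.IsHaarMeasure] [IsProbabilityMeasure μ] {k : ℕ} (S : Fin k → Y → Y)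
    (hS : ∀ i, MeasurePreserving (S i) ν ν) (α : Fin k → (G ≃ₜ* G)) (c : Fin k → Y → G)
    (hc : ∀ i, Measurable (c i)) (T : Fin k → Y × G → Y × G)
    (hT : ∀ i z, T i z = (S i z.1, c i z.1 * α i z.2))
    (hα : ∀ i j x, α i (α j x) = α j (α i x)) (i0 : Fin k)
    (h1 : ∀ χ : G →ₜ* Circle, χ ≠ 1 → ∀ h : ℕ, 1 ≤ h → ∃ x, χ ((α i0)^[h] x) ≠ χ x)
    (h2 : ∀ j, j ≠ i0 → ∀ χ : G →ₜ* Circle, χ ≠ 1 → ∀ h : ℕ, 1 ≤ h →
      ∃ x, χ ((α i0)^[h] x) ≠ χ ((α j)^[h] x))
    (f : Fin k → Y × G → ℂ) (hf : ∀ i, Measurable (f i)) (hb : ∀ i, ∃ C : ℝ, ∀ z, ‖f i z‖ ≤ C) :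
    ∀ᵐ z ∂(ν.prod μ), Tendsto (ces (fun n => ∏ i, f i ((T i)^[n] z) -
      (∫ x, f i0 (((T i0)^[n] z).1, x) ∂μ) * ∏ i ∈ univ.erase i0, f i ((T i)^[n] z)))
        atTop (𝓝 0) := by
  classical
  let E : Y → ℂ := fun y => ∫ x, f i0 (y, x) ∂μ
  have hE : Measurable E := by
    have := (hf i0).stronglyMeasurable.integral_prod_right' (ν := μ)
    exact this.measurable
  obtain ⟨C0, hC0⟩ := hb i0
  have hEb : ∀ y, ‖E y‖ ≤ C0 := by
    intro y
    have h3 := norm_integral_le_of_norm_le_const (μ := μ) (f := fun x => f i0 (y, x)) (C := C0)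
      (Filter.Eventually.of_forall fun x => hC0 (y, x))
    simpa using h3
  let f' : Fin k → Y × G → ℂ := Function.update f i0 (fun z => f i0 z - E z.1)
  have hf'0 : f' i0 = fun z => f i0 z - E z.1 := Function.update_self _ _ _
  have hf'i : ∀ i, i ≠ i0 → f' i = f i := fun i hi => Function.update_of_ne hi _ _
  have hf'm : ∀ i, Measurable (f' i) := by
    intro i
    by_cases hi : i = i0
    · subst hi
      rw [hf'0]
      exact (hf i).sub (hE.comp measurable_fst)
    · rw [hf'i i hi]; exact hf i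
  have hf'b : ∀ i, ∃ C : ℝ, ∀ z, ‖f' i z‖ ≤ C := by
    intro i
    by_cases hi : i = i0
    · subst hi
      rw [hf'0]
      refine ⟨C0 + C0, fun z => (norm_sub_le _ _).trans (add_le_add (hC0 z) (hEb z.1))⟩
    · rw [hf'i i hi]; exact hb i
  have hfint : ∀ y, Integrable (fun x => f i0 (y, x)) μ := by
    intro y
    refine Integrable.of_bound ((hf i0).comp measurable_prodMk_left).aestronglyMeasurable C0 ?_
    exact Filter.Eventually.of_forall fun x => hC0 (y, x)
  have hf'int : Integrable (f' i0) (ν.prod μ) := by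
    obtain ⟨C, hC⟩ := hf'b i0
    exact Integrable.of_bound (hf'm i0).aestronglyMeasurable C (Filter.Eventually.of_forall hC)
  have hmain := mult0 (ν.prod μ) T (fun i => skew_mp ν μ (S i) (hS i) (α i) (c i) (hc i) (T i) (hT i))
    i0 (elem Y G) (elem0 Y G) ?_ ?_ ?_ ?_ ?_ f' hf'm hf'b ?_
  · filter_upwards [hmain] with z hz
    refine hz.congr fun N => ?_
    congr 1
    funext n
    rw [← Finset.mul_prod_erase univ (fun i => f' i ((T i)^[n] z)) (mem_univ i0),
      ← Finset.mul_prod_erase univ (fun i => f i ((T i)^[n] z)) (mem_univ i0), ← sub_mul]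
    congr 1
    · rw [hf'0]
    · refine Finset.prod_congr rfl fun i hi => ?_
      rw [hf'i i (Finset.ne_of_mem_erase hi)]
  · rintro φ ⟨u, χ, hu, _, rfl⟩
    have h3 : Continuous fun x : G => (χ x : ℂ) :=
      continuous_subtype_val.comp χ.continuous_toFun
    exact (hu.comp measurable_fst).mul (h3.measurable.comp measurable_snd)
  · rintro φ ⟨u, χ, hu, ⟨C, hC⟩, rfl⟩
    refine ⟨C, fun z => ?_⟩
    rw [norm_mul, Circle.norm_coe, mul_one]
    exact hC z.1
  · rintro φ ⟨u, χ, hu, hC, _, rfl⟩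
    exact ⟨u, χ, hu, hC, rfl⟩
  · intro f hf hfi ε hε
    exact dens ν μ f hf hfi ε hε
  · intro φ h0 hi
    refine ext_chars ν μ S hS α c hc T hT hα i0 h1 h2 φ ?_ h0
    intro i
    by_cases h : i = i0
    · subst h
      obtain ⟨u, χ, hu, hC, _, he⟩ := h0
      exact ⟨u, χ, hu, hC, he⟩
    · exact hi i h
  · intro ε hε
    refine dens0 ν μ (f' i0) (hf'm i0) hf'int ?_ ε hε
    intro y
    rw [hf'0]
    simp only
    rw [integral_sub (hfint y) (integrable_const _)]
    simp [E]

end Pool.Agent.EXT
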