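import Pool.Agent.EXT.ExD

set_option autoImplicit false

/-! Module ExE: all fibre averages at once, and sums over `1 ≤ n ≤ N`. -/

open Finset Filter Topology MeasureTheory

namespace Pool.Agent.EXT

open Pool.Agent.CAM

theorem ExE_ces_sub (s t : ℕ → ℂ) (N : ℕ) :
    ces (fun n => s n - t n) N = ces s N - ces t N := by
  simp only [ces, sum_sub_distrib, mul_sub]

theorem e3_sum (a b c : ℕ → ℂ) (N : ℕ) :
    ces (fun n => a n - b n) N + ces (fun n => b n - c n) N = ces (fun n => a n - c n) N := by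
  simp only [ExE_ces_sub]
  ring

theorem ExE_icc (s : ℕ → ℂ) (C : ℝ) (hC : ∀ n, ‖s n‖ ≤ C) (L : ℂ)
    (h : Tendsto (ces s) atTop (𝓝 L)) :
    Tendsto (fun N : ℕ => (1 / (N : ℂ)) * ∑ n ∈ Finset.Icc 1 N, s n) atTop (𝓝 L) := by
  have e : ∀ N : ℕ, (1 / (N : ℂ)) * ∑ n ∈ Finset.Icc 1 N, s n =
      ces s N + (1 / (N : ℂ)) * (s N - s 0) := by
    intro N
    have h1 : ∑ n ∈ Finset.Icc 1 N, s n + s 0 = ∑ n ∈ range N, s n + s N := by
      rw [← sum_range_succ, sum_range_succ', add_left_inj]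
      have h2 : Finset.Icc 1 N = Finset.Ico (0 + 1) (N + 1) := by
        ext n
        simp only [Finset.mem_Icc, Finset.mem_Ico]
        omega
      rw [h2, ← Finset.sum_Ico_add', Finset.range_eq_Ico]
    have h3 : ∑ n ∈ Finset.Icc 1 N, s n = ∑ n ∈ range N, s n + (s N - s 0) := by
      linear_combination h1
    rw [h3, ces, mul_add]
  simp_rw [e]
  have h2 : Tendsto (fun N : ℕ => (1 / (N : ℂ)) * (s N - s 0)) atTop (𝓝 0) := by
    have hbd : ∀ N : ℕ, ‖(1 / (N : ℂ)) * (s N - s 0)‖ ≤ (1 / (N : ℝ)) * (2 * C) := by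
      intro N
      rw [norm_mul, norm_div, norm_one, Complex.norm_natCast]
      refine mul_le_mul_of_nonneg_left ?_ (by positivity)
      exact (norm_sub_le _ _).trans (by linarith [hC N, hC 0])
    refine squeeze_zero_norm hbd ?_
    have := tendsto_one_div_atTop_nhds_zero_nat (𝕜 := ℝ)
    simpa using this.mul_const (2 * C)
  simpa using h.add h2

theorem ExE_fst {Y G : Type*} [Mul G] (S : Y → Y) (α : G → G) (c : Y → G) (T : Y × G → Y × G)
    (hT : ∀ z, T z = (S z.1, c z.1 * α z.2)) (n : ℕ) (z : Y × G) :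
    ((T^[n]) z).1 = S^[n] z.1 := by
  induction n generalizing z with
  | zero => rfl
  | succ n ih =>
    rw [Function.iterate_succ_apply, ih, hT, Function.iterate_succ_apply]

theorem ext_all {Y G : Type*} [MeasurableSpace Y] (ν : Measure Y) [IsProbabilityMeasure ν]
    [CommGroup G] [TopologicalSpace G] [IsTopologicalGroup G] [CompactSpace G] [T2Space G]
    [SecondCountableTopology G] [MeasurableSpace G] [BorelSpace G] (μ : Measure G)
    [μ.IsHaarMeasure] [IsProbabilityMeasure μ] {k : ℕ} (S : Fin k → Y → Y)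
    (hS : ∀ i, MeasurePreserving (S i) ν ν) (α : Fin k → (G ≃ₜ* G)) (c : Fin k → Y → G)
    (hc : ∀ i, Measurable (c i)) (T : Fin k → Y × G → Y × G)
    (hT : ∀ i z, T i z = (S i z.1, c i z.1 * α i z.2))
    (hα : ∀ i j x, α i (α j x) = α j (α i x))
    (h1 : ∀ i0, ∀ χ : G →ₜ* Circle, χ ≠ 1 → ∀ h : ℕ, 1 ≤ h → ∃ x, χ ((α i0)^[h] x) ≠ χ x)
    (h2 : ∀ i0 j, j ≠ i0 → ∀ χ : G →ₜ* Circle, χ ≠ 1 → ∀ h : ℕ, 1 ≤ h →
      ∃ x, χ ((α i0)^[h] x) ≠ χ ((α j)^[h] x))
    (f : Fin k → Y × G → ℂ) (hf : ∀ i, Measurable (f i)) (hb : ∀ i, ∃ C : ℝ, ∀ z, ‖f i z‖ ≤ C) :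
    ∀ᵐ z ∂(ν.prod μ), Tendsto (ces (fun n => ∏ i, f i ((T i)^[n] z) -
      ∏ i, ∫ x, f i ((S i)^[n] z.1, x) ∂μ)) atTop (𝓝 0) := by
  set g : Fin k → Y × G → ℂ := fun i z => ∫ x, f i (z.1, x) ∂μ with hg
  have hgm : ∀ i, Measurable (g i) := by
    intro i
    have : Measurable (fun y : Y => ∫ x, f i (y, x) ∂μ) :=
      ((hf i).stronglyMeasurable.integral_prod_right' (ν := μ)).measurable
    exact this.comp measurable_fst
  have hgb : ∀ i, ∃ C : ℝ, ∀ z, ‖g i z‖ ≤ C := by
    intro i
    obtain ⟨C, hC⟩ := hb i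
    refine ⟨C, fun z => ?_⟩
    have := norm_integral_le_of_norm_le_const (μ := μ) (f := fun x => f i (z.1, x))
      (Eventually.of_forall fun x => hC (z.1, x))
    simpa using this
  set F : ℕ → Fin k → Y × G → ℂ := fun s i => if (i : ℕ) < s then g i else f i with hF
  have key : ∀ s : ℕ, s ≤ k → ∀ᵐ z ∂(ν.prod μ), Tendsto (ces (fun n =>
      ∏ i, f i ((T i)^[n] z) - ∏ i, F s i ((T i)^[n] z))) atTop (𝓝 0) := by
    intro s
    induction s with
    | zero =>
      intro _
      refine Eventually.of_forall fun z => ?_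
      have : ces (fun n => ∏ i, f i ((T i)^[n] z) - ∏ i, F 0 i ((T i)^[n] z)) = fun _ => 0 := by
        funext N
        simp [ces, hF]
      rw [this]
      exact tendsto_const_nhds
    | succ s ih =>
      intro hs
      have hs' : s < k := hs
      set i0 : Fin k := ⟨s, hs'⟩ with hi0
      have hm := ext_main ν μ S hS α c hc T hT hα i0 (h1 i0) (h2 i0) (F s)
        (fun i => by
          simp only [hF]
          split_ifs
          · exact hgm i
          · exact hf i)
        (fun i => by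
          simp only [hF]
          split_ifs
          · exact hgb i
          · exact hb i)
      filter_upwards [ih hs'.le, hm] with z hz1 hz2
      have h3 := hz1.add hz2
      rw [add_zero] at h3
      refine h3.congr fun N => ?_
      have e : ∀ n, (∫ x, F s i0 (((T i0)^[n] z).1, x) ∂μ) *
          ∏ i ∈ univ.erase i0, F s i ((T i)^[n] z) = ∏ i, F (s + 1) i ((T i)^[n] z) := by
        intro n
        rw [← Finset.mul_prod_erase univ _ (mem_univ i0)]
        have e1 : F s i0 = f i0 := by simp [hF, hi0]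
        have e2 : F (s + 1) i0 = g i0 := by simp [hF, hi0]
        rw [e1, e2]
        congr 1
        refine prod_congr rfl fun i hi => ?_
        have hne : (i : ℕ) ≠ s := fun h => (Finset.ne_of_mem_erase hi) (Fin.ext h)
        have e3 : F s i = F (s + 1) i := by
          simp only [hF]
          by_cases h : (i : ℕ) < s
          · rw [if_pos h, if_pos (by omega)]
          · rw [if_neg h, if_neg (by omega)]
        rw [e3]
      rw [← e3_sum (fun n => ∏ i, f i ((T i)^[n] z)) (fun n => ∏ i, F s i ((T i)^[n] z))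
        (fun n => ∏ i, F (s + 1) i ((T i)^[n] z)) N]
      simp_rw [e]
  filter_upwards [key k le_rfl] with z hz
  refine hz.congr fun N => ?_
  congr 1
  funext n
  congr 1
  refine prod_congr rfl fun i _ => ?_
  simp only [hF, hg, i.2, if_true]
  rw [ExE_fst (S i) (α i) (c i) (T i) (hT i) n z]

end Pool.Agent.EXT
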