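import Pool.Agent.EXT.ExE
import Pool.Agent.CAM.Fin

set_option autoImplicit false

/-! Module ExF: statements with sums over `1 ≤ n ≤ N`; skew products over algebraic bases. -/

open Finset Filter Topology MeasureTheory

namespace Pool.Agent.EXT

open Pool.Agent.CAM

/-- no non-trivial character `χ` of `G` satisfies `χ ∘ α_{i0}^h = χ` or `χ ∘ α_{i0}^h = χ ∘ α_j^h`
for some `h ≥ 1` and `j ≠ i0` -/
def Indep {G : Type*} [CommGroup G] [TopologicalSpace G] {k : ℕ} (α : Fin k → (G ≃ₜ* G))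
    (i0 : Fin k) : Prop :=
  ∀ χ : G →ₜ* Circle, χ ≠ 1 → ∀ h : ℕ, 1 ≤ h → (∃ x, χ ((α i0)^[h] x) ≠ χ x) ∧
    ∀ j, j ≠ i0 → ∃ x, χ ((α i0)^[h] x) ≠ χ ((α j)^[h] x)

theorem bdd_prod {X : Type*} {k : ℕ} (f : Fin k → X → ℂ) (hb : ∀ i, ∃ C : ℝ, ∀ z, ‖f i z‖ ≤ C)
    (s : Finset (Fin k)) : ∃ C : ℝ, 0 ≤ C ∧ ∀ z : Fin k → X, ‖∏ i ∈ s, f i (z i)‖ ≤ C := by
  choose C hC using hb
  refine ⟨∏ i ∈ s, |C i|, prod_nonneg fun i _ => abs_nonneg _, fun z => ?_⟩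
  rw [norm_prod]
  exact prod_le_prod (fun i _ => norm_nonneg _) fun i _ => (hC i (z i)).trans (le_abs_self _)

section

variable {Y G : Type*} [MeasurableSpace Y] (ν : Measure Y) [IsProbabilityMeasure ν]
    [CommGroup G] [TopologicalSpace G] [IsTopologicalGroup G] [CompactSpace G] [T2Space G]
    [SecondCountableTopology G] [MeasurableSpace G] [BorelSpace G] (μ : Measure G)
    [μ.IsHaarMeasure] [IsProbabilityMeasure μ] {k : ℕ} (S : Fin k → Y → Y)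
    (hS : ∀ i, MeasurePreserving (S i) ν ν) (α : Fin k → (G ≃ₜ* G)) (c : Fin k → Y → G)
    (hc : ∀ i, Measurable (c i)) (T : Fin k → Y × G → Y × G)
    (hT : ∀ i z, T i z = (S i z.1, c i z.1 * α i z.2))
    (hα : ∀ i j x, α i (α j x) = α j (α i x))
    (f : Fin k → Y × G → ℂ) (hf : ∀ i, Measurable (f i)) (hb : ∀ i, ∃ C : ℝ, ∀ z, ‖f i z‖ ≤ C)

include hb in
theorem fib_bdd (i : Fin k) : ∃ C : ℝ, 0 ≤ C ∧ ∀ y : Y, ‖∫ x, f i (y, x) ∂μ‖ ≤ C := by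
  obtain ⟨C, hC⟩ := hb i
  refine ⟨|C|, abs_nonneg _, fun y => ?_⟩
  have := norm_integral_le_of_norm_le_const (μ := μ) (f := fun x => f i (y, x))
    (Eventually.of_forall fun x => (hC (y, x)).trans (le_abs_self C))
  simpa using this

include hS hc hT hα hf hb

theorem ext_one_icc (i0 : Fin k) (h0 : Indep α i0) :
    ∀ᵐ z ∂(ν.prod μ), Tendsto (fun N : ℕ => (1 / (N : ℂ)) * ∑ n ∈ Finset.Icc 1 N,
      (∏ i, f i ((T i)^[n] z) - (∫ x, f i0 ((S i0)^[n] z.1, x) ∂μ) *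
        ∏ i ∈ univ.erase i0, f i ((T i)^[n] z))) atTop (𝓝 0) := by
  have h := ext_main ν μ S hS α c hc T hT hα i0 (fun χ hχ h hh => (h0 χ hχ h hh).1)
    (fun j hj χ hχ h hh => (h0 χ hχ h hh).2 j hj) f hf hb
  obtain ⟨C1, hC1, hC1'⟩ := bdd_prod f hb univ
  obtain ⟨C2, hC2, hC2'⟩ := bdd_prod f hb (univ.erase i0)
  obtain ⟨C3, hC3, hC3'⟩ := fib_bdd μ f hb i0
  filter_upwards [h] with z hz
  simp_rw [ExE_fst (S i0) (α i0) (c i0) (T i0) (hT i0)] at hz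
  refine ExE_icc _ (C1 + C3 * C2) (fun n => ?_) 0 hz
  refine (norm_sub_le _ _).trans (add_le_add (hC1' _) ?_)
  rw [norm_mul]
  exact mul_le_mul (hC3' _) (hC2' _) (norm_nonneg _) hC3

theorem ext_all_icc (h0 : ∀ i0, Indep α i0) :
    ∀ᵐ z ∂(ν.prod μ), Tendsto (fun N : ℕ => (1 / (N : ℂ)) * ∑ n ∈ Finset.Icc 1 N,
      (∏ i, f i ((T i)^[n] z) - ∏ i, ∫ x, f i ((S i)^[n] z.1, x) ∂μ)) atTop (𝓝 0) := by
  have h := ext_all ν μ S hS α c hc T hT hα (fun i0 χ hχ h hh => (h0 i0 χ hχ h hh).1)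
    (fun i0 j hj χ hχ h hh => (h0 i0 χ hχ h hh).2 j hj) f hf hb
  obtain ⟨C1, hC1, hC1'⟩ := bdd_prod f hb univ
  obtain ⟨C2, hC2, hC2'⟩ := bdd_prod (fun i y => ∫ x, f i (y, x) ∂μ)
    (fun i => by obtain ⟨C, _, h⟩ := fib_bdd μ f hb i; exact ⟨C, h⟩) univ
  filter_upwards [h] with z hz
  refine ExE_icc _ (C1 + C2) (fun n => ?_) 0 hz
  exact (norm_sub_le _ _).trans (add_le_add (hC1' fun i => (T i)^[n] z)
    (hC2' fun i => (S i)^[n] z.1))

theorem ext_conv (h0 : ∀ i0, Indep α i0)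
    (hY : ∀ g : Fin k → Y → ℂ, (∀ i, Measurable (g i)) → (∀ i, ∃ C : ℝ, ∀ y, ‖g i y‖ ≤ C) →
      ∀ᵐ y ∂ν, ∃ L : ℂ, Tendsto (fun N : ℕ => (1 / (N : ℂ)) * ∑ n ∈ Finset.Icc 1 N,
        ∏ i, g i ((S i)^[n] y)) atTop (𝓝 L)) :
    ∀ᵐ z ∂(ν.prod μ), ∃ L : ℂ, Tendsto (fun N : ℕ => (1 / (N : ℂ)) * ∑ n ∈ Finset.Icc 1 N,
      ∏ i, f i ((T i)^[n] z)) atTop (𝓝 L) := by
  have h := ext_all_icc ν μ S hS α c hc T hT hα f hf hb h0
  have h2 := hY (fun i y => ∫ x, f i (y, x) ∂μ)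
    (fun i => ((hf i).stronglyMeasurable.integral_prod_right' (ν := μ)).measurable)
    (fun i => by obtain ⟨C, _, h⟩ := fib_bdd μ f hb i; exact ⟨C, h⟩)
  have h3 : ∀ᵐ z ∂(ν.prod μ), ∃ L : ℂ, Tendsto (fun N : ℕ => (1 / (N : ℂ)) *
      ∑ n ∈ Finset.Icc 1 N, ∏ i, ∫ x, f i ((S i)^[n] z.1, x) ∂μ) atTop (𝓝 L) :=
    (Measure.quasiMeasurePreserving_fst (μ := ν) (ν := μ)).ae h2
  filter_upwards [h, h3] with z hz1 ⟨L, hL⟩
  refine ⟨L, ?_⟩
  have h4 := hz1.add hL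
  rw [zero_add] at h4
  refine h4.congr fun N => ?_
  rw [← mul_add, ← sum_add_distrib]
  congr 1
  exact sum_congr rfl fun n _ => by ring

end

/-- algebraic base: `S i` pairwise commuting affine maps of a compact abelian group `K` -/
theorem ext_alg {K G : Type*} [CommGroup K] [TopologicalSpace K] [IsTopologicalGroup K]
    [CompactSpace K] [T2Space K] [MeasurableSpace K] [BorelSpace K] (ν : Measure K)
    [ν.IsHaarMeasure] [ν.Regular] [IsProbabilityMeasure ν]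
    [CommGroup G] [TopologicalSpace G] [IsTopologicalGroup G] [CompactSpace G] [T2Space G]
    [SecondCountableTopology G] [MeasurableSpace G] [BorelSpace G] (μ : Measure G)
    [μ.IsHaarMeasure] [IsProbabilityMeasure μ] {k : ℕ} (S : Fin k → Equiv.Perm K)
    (hS : ∀ i, ∃ (β : K ≃ₜ* K) (b : K), ∀ y, S i y = b * β y)
    (hcomm : ∀ i j, S i * S j = S j * S i) (α : Fin k → (G ≃ₜ* G)) (c : Fin k → K → G)
    (hc : ∀ i, Measurable (c i)) (T : Fin k → K × G → K × G)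
    (hT : ∀ i z, T i z = (S i z.1, c i z.1 * α i z.2))
    (hα : ∀ i j x, α i (α j x) = α j (α i x)) (h0 : ∀ i0, Indep α i0)
    (f : Fin k → K × G → ℂ) (hf : ∀ i, Measurable (f i)) (hb : ∀ i, ∃ C : ℝ, ∀ z, ‖f i z‖ ≤ C) :
    ∀ᵐ z ∂(ν.prod μ), ∃ L : ℂ, Tendsto (fun N : ℕ => (1 / (N : ℂ)) * ∑ n ∈ Finset.Icc 1 N,
      ∏ i, f i ((T i)^[n] z)) atTop (𝓝 L) := by
  refine ext_conv ν μ (fun i => S i) (fun i => ?_) α c hc T hT hα f hf hb h0 ?_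
  · obtain ⟨β, b, h⟩ := hS i
    have e : (S i : K → K) = (fun y => b * y) ∘ β := by
      funext y
      exact h y
    rw [e]
    have hβ : MeasurePreserving β ν ν :=
      β.toMulEquiv.toMonoidHom.measurePreserving β.continuous β.surjective rfl
    exact (measurePreserving_mul_left ν b).comp hβ
  · intro g hg hgb
    have h := fin_main ν S hS hcomm (fun _ => Polynomial.X) (fun _ => Polynomial.natDegree_X_le)
      g hg hgb
    filter_upwards [h] with y ⟨L, hL⟩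
    refine ⟨L, hL.congr fun N => ?_⟩
    congr 1
    refine sum_congr rfl fun n _ => prod_congr rfl fun i _ => ?_
    rw [Polynomial.eval_X, zpow_natCast, ← Equiv.Perm.iterate_eq_pow]

end Pool.Agent.EXT
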